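import Mathlib

/-!
# Combinatorial part: solving a system of congruences along a group action

`M` indexes the generators, `g : M → Equiv.Perm X` is the family of permutations, letters are
elements of `M × Bool` as in Mathlib's `FreeGroup`.
-/

set_option autoImplicit false

namespace Helper826.Cong

variable {M X I : Type*}

/-- formal inverse of a letter -/
def linv (s : M × Bool) : M × Bool := (s.1, !s.2)

@[simp] lemma linv_linv (s : M × Bool) : linv (linv s) = s := by simp [linv]

lemma linv_ne (s : M × Bool) : linv s ≠ s := by
  intro h
  have := congrArg Prod.snd h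
  simp [linv] at this

lemma linv_inj {s t : M × Bool} (h : linv s = linv t) : s = t := by
  rw [← linv_linv s, h, linv_linv]

/-- the action of a letter -/
def act (g : M → Equiv.Perm X) (s : M × Bool) (x : X) : X :=
  if s.2 then g s.1 x else (g s.1).symm x

@[simp] lemma act_linv (g : M → Equiv.Perm X) (s : M × Bool) (x : X) :
    act g (linv s) (act g s x) = x := by
  unfold act linv
  rcases s with ⟨i, b⟩
  cases b <;> simp

@[simp] lemma act_act_linv (g : M → Equiv.Perm X) (s : M × Bool) (x : X) :
    act g s (act g (linv s) x) = x := by
  have := act_linv g (linv s) x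
  rwa [linv_linv] at this

/-- walk along a word, first letter first -/
def walk (g : M → Equiv.Perm X) : List (M × Bool) → X → X
  | [], x => x
  | s :: w, x => walk g w (act g s x)

@[simp] lemma walk_nil (g : M → Equiv.Perm X) (x : X) : walk g [] x = x := rfl

@[simp] lemma walk_cons (g : M → Equiv.Perm X) (s : M × Bool) (w : List (M × Bool)) (x : X) :
    walk g (s :: w) x = walk g w (act g s x) := rfl

lemma walk_append (g : M → Equiv.Perm X) (v w : List (M × Bool)) (x : X) :
    walk g (v ++ w) x = walk g w (walk g v x) := by
  induction v generalizing x with
  | nil => rfl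
  | cons s v ih => simp [ih]

/-- reduced words -/
def Red (w : List (M × Bool)) : Prop := w.IsChain (fun s t => t ≠ linv s)

lemma red_iff_isReduced (w : List (M × Bool)) : Red w ↔ FreeGroup.IsReduced w := by
  unfold Red FreeGroup.IsReduced
  have : (fun s t : M × Bool => t ≠ linv s) = (fun a b => (a.1 = b.1 → a.2 = b.2)) := by
    funext s t
    rcases s with ⟨i, b⟩
    rcases t with ⟨j, c⟩
    simp only [linv, ne_eq, Prod.mk.injEq, not_and, eq_iff_iff]
    constructor
    · intro h hij
      have := h hij.symm
      cases b <;> cases c <;> simp_all
    · intro h hij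
      have := h hij.symm
      cases b <;> cases c <;> simp_all
  rw [this]

lemma red_nil : Red ([] : List (M × Bool)) := by unfold Red; simp

lemma red_singleton (s : M × Bool) : Red [s] := by unfold Red; simp

lemma Red.tail {s : M × Bool} {w : List (M × Bool)} (h : Red (s :: w)) : Red w := by
  unfold Red at *
  exact h.tail

lemma red_append {v w : List (M × Bool)} (hv : Red v) (hw : Red w)
    (h : ∀ s ∈ v.getLast?, ∀ t ∈ w.head?, t ≠ linv s) : Red (v ++ w) := by
  unfold Red at *
  rw [List.isChain_append]
  exact ⟨hv, hw, h⟩

lemma Red.left {v w : List (M × Bool)} (h : Red (v ++ w)) : Red v := by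
  unfold Red at *
  rw [List.isChain_append] at h
  exact h.1

lemma Red.right {v w : List (M × Bool)} (h : Red (v ++ w)) : Red w := by
  unfold Red at *
  rw [List.isChain_append] at h
  exact h.2.1

/-- the no-return property of a set of points: a reduced walk leaving `D` never returns -/
def NR (g : M → Equiv.Perm X) (D : Set X) : Prop :=
  ∀ x ∈ D, ∀ (s : M × Bool) (w : List (M × Bool)), Red (s :: w) → act g s x ∉ D →
    walk g (s :: w) x ∉ D

lemma NR.key {g : M → Equiv.Perm X} {D : Set X} (hD : NR g D) {y : X} {s : M × Bool}
    (hs : act g s y ∈ D) {x : X} (hx : x ∈ D) {t : M × Bool} {w : List (M × Bool)}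
    (hr : Red (t :: w)) (ht : act g t x ∉ D) (hw : walk g (t :: w) x = y) :
    t :: w = [linv s] := by
  obtain h | ⟨u, l, hul⟩ := List.eq_nil_or_concat (t :: w)
  · exact absurd h (by simp)
  · rw [List.concat_eq_append] at hul
    by_cases hl : s = linv l
    · subst hl
      have hu : walk g u x = act g (linv l) y := by
        rw [hul, walk_append] at hw
        simp only [walk_cons, walk_nil] at hw
        rw [← hw, act_linv]
      cases u with
      | nil => simpa using hul
      | cons t' u' =>
        exfalso
        rw [List.cons_append] at hul
        obtain ⟨rfl, h2⟩ := List.cons_eq_cons.mp hul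
        subst h2
        have hr' : Red (t :: u') := by
          have : Red ((t :: u') ++ [l]) := by simpa using hr
          exact this.left
        have := hD x hx t u' hr' ht
        rw [hu] at this
        exact this hs
    · exfalso
      have hr' : Red ((t :: w) ++ [s]) := by
        apply red_append hr (red_singleton s)
        intro a ha b hb
        rw [hul] at ha
        simp at ha hb
        subst ha hb
        exact hl
      have := hD x hx t (w ++ [s]) (by simpa using hr') ht
      rw [← List.cons_append, walk_append, hw] at this
      exact this (by simpa using hs)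

lemma NR.unique {g : M → Equiv.Perm X} {D : Set X} (hD : NR g D) {y : X} (hy : y ∉ D)
    {s : M × Bool} (hs : act g s y ∈ D) {t : M × Bool} (ht : act g t y ∈ D) : t = s := by
  by_contra hne
  have := hD _ hs (linv s) [t] (by
    unfold Red
    simp
    exact hne) (by simpa using hy)
  simp at this
  exact this ht

lemma NR.noloop {g : M → Equiv.Perm X} {D : Set X} (hD : NR g D) {y : X} (hy : y ∉ D)
    {s : M × Bool} (hs : act g s y ∈ D) {t : M × Bool} : act g t y ≠ y := by
  intro ht
  by_cases hts : t = s
  · subst hts
    rw [ht] at hs
    exact hy hs
  · have := hD.key hs hs (t := linv s) (w := [t]) (by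
      unfold Red
      simp
      exact hts) (by simpa using hy) (by simpa using ht)
    simp at this

lemma NR.insert {g : M → Equiv.Perm X} {D : Set X} (hD : NR g D) {y : X} (hy : y ∉ D)
    {s : M × Bool} (hs : act g s y ∈ D) : NR g (insert y D) := by
  intro x hx t w hr ht hmem
  rw [Set.mem_insert_iff] at hx hmem
  rw [Set.mem_insert_iff, not_or] at ht
  rcases hx with rfl | hx
  · -- x = y
    have hts : t ≠ s := by
      rintro rfl
      exact ht.2 hs
    have hr' : Red (linv s :: t :: w) := by
      unfold Red at *
      rw [List.isChain_cons_cons]
      exact ⟨by simpa using hts, hr⟩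
    rcases hmem with hmem | hmem
    · have := hD.key hs hs (t := linv s) (w := t :: w) hr' (by simpa using hy)
        (by simpa using hmem)
      simp at this
    · have := hD _ hs (linv s) (t :: w) hr' (by simpa using hy)
      rw [walk_cons, act_linv] at this
      exact this hmem
  · rcases hmem with hmem | hmem
    · have := hD.key hs hx hr ht.2 hmem
      simp at this
      obtain ⟨rfl, rfl⟩ := this
      simp at hmem
      exact ht.1 hmem
    · exact hD x hx t w hr ht.2 hmem

end Helper826.Cong
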