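import Pool.Agent.Helper826_Cong.Comb

/-!
# Cycles in the action graph
-/

set_option autoImplicit false

namespace Helper826.Cong

variable {M X I : Type*}

/-- any two reduced closed walks at a common point commute in the free group -/
def Comm (g : M → Equiv.Perm X) : Prop :=
  ∀ (x : X) (v w : List (M × Bool)), walk g v x = x → walk g w x = x →
    FreeGroup.mk (v ++ w) = FreeGroup.mk (w ++ v)

lemma eq_of_mk_eq {v w : List (M × Bool)} (hv : Red v) (hw : Red w)
    (h : FreeGroup.mk v = FreeGroup.mk w) : v = w := by
  classical
  rw [red_iff_isReduced] at hv hw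
  have := FreeGroup.reduce.sound h
  rwa [hv.reduce_eq, hw.reduce_eq] at this

section cycle

variable {k : ℕ} [NeZero k]

/-- a segment of the cycle -/
def seg (s : ZMod k → M × Bool) : ZMod k → ℕ → List (M × Bool)
  | _, 0 => []
  | a, (n + 1) => s a :: seg s (a + 1) n

lemma walk_seg {g : M → Equiv.Perm X} {s : ZMod k → M × Bool} {y : ZMod k → X}
    (hs : ∀ a, act g (s a) (y a) = y (a + 1)) (a : ZMod k) (n : ℕ) :
    walk g (seg s a n) (y a) = y (a + n) := by
  induction n generalizing a with
  | zero => simp [seg]
  | succ n ih =>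
    simp only [seg, walk_cons]
    rw [hs, ih]
    push_cast
    congr 1
    ring

lemma head_seg (s : ZMod k → M × Bool) (a : ZMod k) (n : ℕ) :
    ∀ t ∈ (seg s a n).head?, t = s a := by
  intro t ht
  cases n with
  | zero => simp [seg] at ht
  | succ n => simp [seg] at ht; exact ht.symm

lemma last_seg (s : ZMod k → M × Bool) (a : ZMod k) (n : ℕ) :
    (seg s a (n + 1)).getLast? = some (s (a + n)) := by
  induction n generalizing a with
  | zero => simp [seg]
  | succ n ih =>
    rw [seg, List.getLast?_cons, ih]
    simp
    congr 1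
    ring

lemma red_seg {s : ZMod k → M × Bool} (hr : ∀ a, s (a + 1) ≠ linv (s a)) (a : ZMod k) (n : ℕ) :
    Red (seg s a n) := by
  induction n generalizing a with
  | zero => exact red_nil
  | succ n ih =>
    have : seg s a (n + 1) = [s a] ++ seg s (a + 1) n := rfl
    rw [this]
    apply red_append (red_singleton _) (ih _)
    intro t ht t' ht'
    have h1 := head_seg _ _ _ _ ht'
    simp at ht
    subst ht h1
    exact hr a

/-- forward lemma -/
lemma forward {g : M → Equiv.Perm X} (hc : Comm g) {s : ZMod k → M × Bool} {y : ZMod k → X}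
    (hs : ∀ a, act g (s a) (y a) = y (a + 1)) (hr : ∀ a, s (a + 1) ≠ linv (s a))
    (a : ZMod k) (t : M × Bool) (w : List (M × Bool)) (hv : Red (t :: w))
    (hcl : walk g (t :: w) (y a) = y a) (hh : t ≠ linv (s (a - 1)))
    (hl : ∀ l ∈ (t :: w).getLast?, s a ≠ linv l) : t = s a := by
  obtain ⟨m, hm⟩ : ∃ m, k = m + 1 := Nat.exists_eq_succ_of_ne_zero (NeZero.ne k)
  have hW : walk g (seg s a k) (y a) = y a := by
    rw [walk_seg hs]; simp
  have hlastW : (seg s a k).getLast? = some (s (a - 1)) := by
    have h1 : (seg s a (m + 1)).getLast? = some (s (a + (m : ZMod k))) := last_seg s a m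
    have h2 : a + (m : ZMod k) = a - 1 := by
      have : ((m + 1 : ℕ) : ZMod k) = 0 := by rw [← hm]; simp
      push_cast at this
      linear_combination this
    rw [h2] at h1
    rw [← h1]
    congr 2
  have hheadW : (seg s a k).head? = some (s a) := by
    have h1 : (seg s a (m + 1)).head? = some (s a) := by simp [seg]
    rw [← h1]
    congr 2
  have hred1 : Red ((t :: w) ++ seg s a k) := by
    apply red_append hv (red_seg hr _ _)
    intro l hl' t' ht'
    rw [hheadW] at ht'
    simp at ht'
    subst ht'
    exact hl l hl'
  have hred2 : Red (seg s a k ++ (t :: w)) := by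
    apply red_append (red_seg hr _ _) hv
    intro l hl' t' ht'
    rw [hlastW] at hl'
    simp at ht' hl'
    subst ht' hl'
    exact hh
  have heq := eq_of_mk_eq hred1 hred2 (hc _ _ _ hcl hW)
  have : ((t :: w) ++ seg s a k).head? = (seg s a k ++ (t :: w)).head? := by rw [heq]
  rw [List.head?_append, List.head?_append, hheadW] at this
  simpa using this

/-- the reversed cycle -/
def revs (s : ZMod k → M × Bool) : ZMod k → M × Bool := fun a => linv (s (-a - 1))

lemma revs_step {g : M → Equiv.Perm X} {s : ZMod k → M × Bool} {y : ZMod k → X}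
    (hs : ∀ a, act g (s a) (y a) = y (a + 1)) (a : ZMod k) :
    act g (revs s a) (y (-a)) = y (-(a + 1)) := by
  have h := hs (-a - 1)
  have h2 : -a - 1 + 1 = -a := by ring
  rw [h2] at h
  unfold revs
  rw [← h, act_linv]
  congr 1
  ring

lemma revs_red {s : ZMod k → M × Bool} (hr : ∀ a, s (a + 1) ≠ linv (s a)) (a : ZMod k) :
    revs s (a + 1) ≠ linv (revs s a) := by
  unfold revs
  have h := hr (-(a + 1) - 1)
  have h2 : -(a + 1) - 1 + 1 = -a - 1 := by ring
  rw [h2] at h
  rw [linv_linv]
  exact h.symm

/-- a reduced closed walk at a point of the cycle starts along the cycle -/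
lemma closed_head {g : M → Equiv.Perm X} (hc : Comm g) {s : ZMod k → M × Bool} {y : ZMod k → X}
    (hs : ∀ a, act g (s a) (y a) = y (a + 1)) (hr : ∀ a, s (a + 1) ≠ linv (s a))
    (a : ZMod k) (t : M × Bool) (w : List (M × Bool)) (hv : Red (t :: w))
    (hcl : walk g (t :: w) (y a) = y a) : t = s a ∨ t = linv (s (a - 1)) := by
  by_contra hcon
  rw [not_or] at hcon
  obtain ⟨h1, h2⟩ := hcon
  by_cases hl : ∀ l ∈ (t :: w).getLast?, s a ≠ linv l
  · exact h1 (forward hc hs hr a t w hv hcl h2 hl)
  · push Not at hl
    obtain ⟨l, hl1, hl2⟩ := hl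
    have e1 : revs s (-a) = linv (s (a - 1)) := by
      unfold revs
      congr 2
      ring
    have e2 : revs s (-a - 1) = linv (s a) := by
      unfold revs
      congr 2
      ring
    have := forward (y := fun a => y (-a)) hc (revs_step hs) (revs_red hr) (-a) t w hv
      (by simpa using hcl) (by rw [e2, linv_linv]; exact h1) (by
        intro l' hl'
        have : l' = l := by
          rw [Option.mem_def] at hl1 hl'
          rw [hl1] at hl'
          simpa using hl'.symm
        subst this
        rw [e1]
        intro h
        rw [← hl2] at h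
        have h3 := hr (a - 1)
        rw [sub_add_cancel] at h3
        exact h3 h.symm)
    rw [e1] at this
    exact h2 this

/-- a reduced walk between points of the cycle starts along the cycle -/
lemma chord_head {g : M → Equiv.Perm X} (hc : Comm g) {s : ZMod k → M × Bool} {y : ZMod k → X}
    (hs : ∀ a, act g (s a) (y a) = y (a + 1)) (hr : ∀ a, s (a + 1) ≠ linv (s a))
    (a b : ZMod k) (t : M × Bool) (w : List (M × Bool)) (hv : Red (t :: w))
    (hcl : walk g (t :: w) (y a) = y b) : t = s a ∨ t = linv (s (a - 1)) := by
  by_cases hl : ∀ l ∈ (t :: w).getLast?, s b ≠ linv l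
  · apply closed_head hc hs hr a t (w ++ seg s b (a - b).val)
    · rw [← List.cons_append]
      apply red_append hv (red_seg hr _ _)
      intro l hl' t' ht'
      rw [head_seg _ _ _ _ ht']
      exact hl l hl'
    · rw [← List.cons_append, walk_append, hcl, walk_seg hs]
      simp
  · push Not at hl
    obtain ⟨l, hl1, hl2⟩ := hl
    have e1 : revs s (-b) = linv (s (b - 1)) := by
      unfold revs
      congr 2
      ring
    apply closed_head hc hs hr a t (w ++ seg (revs s) (-b) (b - a).val)
    · rw [← List.cons_append]
      apply red_append hv (red_seg (revs_red hr) _ _)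
      intro l' hl' t' ht'
      rw [head_seg _ _ _ _ ht', e1]
      have : l' = l := by
        rw [Option.mem_def] at hl1 hl'
        rw [hl1] at hl'
        simpa using hl'.symm
      subst this
      intro h
      rw [← hl2] at h
      have h3 := hr (b - 1)
      rw [sub_add_cancel] at h3
      exact h3 h.symm
    · rw [← List.cons_append, walk_append, hcl]
      have := walk_seg (y := fun a => y (-a)) (revs_step hs) (-b) (b - a).val
      simp only [neg_neg] at this
      rw [this]
      congr 1
      simp

end cycle

end Helper826.Cong
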