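import Mathlib

/-!
# A generic family of reals, isometries given by `GL(2,ℝ)`, commuting stabilizers
-/

set_option autoImplicit false

open Matrix Cardinal UpperHalfPlane

namespace Helper826.Cong

/-- a family of `≤ 𝔠` many distinct reals over which some positive real is transcendental -/
lemma exists_generic (N : Type) (hN : #N ≤ 𝔠) :
    ∃ (x : N → ℝ) (τ : ℝ), Function.Injective x ∧ 0 < τ ∧
      Transcendental (Algebra.adjoin ℚ (Set.range x)) τ := by
  obtain ⟨s, hs⟩ := exists_isTranscendenceBasis ℚ ℝ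
  have hcard : 𝔠 ≤ #s := by
    have halg : Algebra.IsAlgebraic (Algebra.adjoin ℚ (Set.range ((↑) : s → ℝ))) ℝ :=
      hs.isAlgebraic
    have h1 := Algebra.IsAlgebraic.cardinalMk_le_max
      (Algebra.adjoin ℚ (Set.range ((↑) : s → ℝ))) ℝ
    have h2 : #(Algebra.adjoin ℚ (Set.range ((↑) : s → ℝ))) = #(MvPolynomial s ℚ) :=
      Cardinal.mk_congr hs.1.aevalEquiv.toEquiv.symm
    have h3 : #(MvPolynomial s ℚ) ≤ max (max #ℚ #s) ℵ₀ := MvPolynomial.cardinalMk_le_max
    rw [h2, Cardinal.mk_real] at h1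
    have h4 : 𝔠 ≤ max #s ℵ₀ := by
      refine h1.trans (max_le (h3.trans ?_) (le_max_right _ _))
      refine max_le (max_le ?_ (le_max_left _ _)) (le_max_right _ _)
      exact (Cardinal.mk_le_aleph0).trans (le_max_right _ _)
    rcases le_max_iff.mp h4 with h | h
    · exact h
    · exact absurd h (not_le.mpr Cardinal.aleph0_lt_continuum)
  have hopt : #(Option N) ≤ #s := by
    refine le_trans ?_ hcard
    rw [Cardinal.mk_option]
    exact Cardinal.add_le_of_le Cardinal.aleph0_le_continuum hN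
      (Cardinal.one_lt_aleph0.le.trans Cardinal.aleph0_le_continuum)
  obtain ⟨f⟩ := Cardinal.le_def _ _ |>.mp hopt
  have hind : AlgebraicIndependent ℚ (fun o : Option N => ((f o : s) : ℝ)) :=
    hs.1.comp f f.injective
  set x : N → ℝ := fun n => (f (some n) : ℝ) with hx
  set τ : ℝ := (f none : ℝ) with hτ
  have hfun : (fun o : Option N => ((f o : s) : ℝ)) = fun o => o.elim τ x := by
    funext o
    cases o <;> rfl
  rw [hfun] at hind
  obtain ⟨hix, htr⟩ := AlgebraicIndependent.option_iff.mp hind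
  refine ⟨x, τ ^ 2, hix.injective, ?_, htr.pow two_pos⟩
  have : τ ≠ 0 := by
    intro h
    rw [h] at htr
    exact htr isAlgebraic_zero
  positivity

/-- `GL(2,ℝ)` acts on the upper half plane by isometries -/
lemma isometry_gl (g : GL (Fin 2) ℝ) : Isometry (fun z : ℍ => g • z) := by
  apply Isometry.of_dist_eq
  intro z w
  have hd : (g.det : ℝ) ≠ 0 := g.det.ne_zero
  have hz : denom g z ≠ 0 := denom_ne_zero g z
  have hw : denom g w ≠ 0 := denom_ne_zero g w
  have h1 : Real.cosh (dist (g • z) (g • w)) = Real.cosh (dist z w) := by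
    rw [UpperHalfPlane.cosh_dist, UpperHalfPlane.cosh_dist]
    congr 1
    have h2 : dist ((g • z : ℍ) : ℂ) ((g • w : ℍ) : ℂ) =
        |(g.det : ℝ)| * dist (z : ℂ) w / (‖denom g z‖ * ‖denom g w‖) := by
      rw [coe_smul, coe_smul, Complex.dist_eq, ← map_sub, norm_σ, Complex.dist_eq]
      have h3 : num g z / denom g z - num g w / denom g w =
          ((g.det : ℝ) : ℂ) * ((z : ℂ) - w) / (denom g z * denom g w) := by
        rw [div_sub_div _ _ hz hw]
        congr 1
        simp only [num, denom, Matrix.GeneralLinearGroup.val_det_apply, Matrix.det_fin_two]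
        push_cast
        ring
      rw [h3, norm_div, norm_mul, norm_mul]
      congr 2
      simp
    rw [h2, im_smul_eq_div_normSq, im_smul_eq_div_normSq]
    have hzi := z.im_ne_zero
    have hwi := w.im_ne_zero
    have hz' : ‖denom g z‖ ≠ 0 := norm_ne_zero_iff.mpr hz
    have hw' : ‖denom g w‖ ≠ 0 := norm_ne_zero_iff.mpr hw
    have hd' : |(g.det : ℝ)| ≠ 0 := abs_ne_zero.mpr hd
    rw [Complex.normSq_eq_norm_sq, Complex.normSq_eq_norm_sq]
    field_simp
  exact Real.cosh_injOn dist_nonneg dist_nonneg h1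

lemma fix_eqs {A : GL (Fin 2) ℝ} (hA : 0 < A.val.det) {z : ℍ} (h : A • z = z) :
    A 0 0 = 2 * A 1 0 * z.re + A 1 1 ∧ A 0 1 = - A 1 0 * (z.re ^ 2 + z.im ^ 2) := by
  rw [gl_smul_eq_self_iff_quadratic hA] at h
  have him := z.im_ne_zero
  have h1 := congrArg Complex.re h
  have h2 := congrArg Complex.im h
  simp at h1 h2
  have h3 : A 0 0 = 2 * A 1 0 * z.re + A 1 1 := by
    have : z.im * (2 * A 1 0 * z.re + A 1 1 - A 0 0) = 0 := by linear_combination h2
    rcases mul_eq_zero.mp this with h4 | h4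
    · exact absurd h4 him
    · linear_combination -h4
  refine ⟨h3, ?_⟩
  rw [h3] at h1
  linear_combination -h1

/-- orientation preserving maps with a common fixed point commute -/
lemma commute_of_fix {A B : GL (Fin 2) ℝ} (hA : 0 < A.val.det) (hB : 0 < B.val.det) {z : ℍ}
    (h1 : A • z = z) (h2 : B • z = z) : A * B = B * A := by
  obtain ⟨h3, h4⟩ := fix_eqs hA h1
  obtain ⟨h5, h6⟩ := fix_eqs hB h2
  ext i j
  rw [Matrix.GeneralLinearGroup.coe_mul, Matrix.GeneralLinearGroup.coe_mul, Matrix.mul_apply,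
    Matrix.mul_apply, Fin.sum_univ_two, Fin.sum_univ_two]
  fin_cases i <;> fin_cases j <;> simp only [Fin.zero_eta, Fin.mk_one, Fin.isValue] <;>
    simp only [h3, h4, h5, h6] <;> ring

end Helper826.Cong
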