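import Pool.Agent.Helper826_Cong.Comb

/-!
# Leading coefficients of words in generic matrices
-/

set_option autoImplicit false

open Polynomial Matrix

namespace Helper826.Cong

variable {M : Type*} {K : Type*} [CommRing K]

/-- the rank one matrix `(a,1)ᵀ (1,-b)` -/
def Dm (a b : K) : Matrix (Fin 2) (Fin 2) K := !![a, -(a * b); 1, -b]

lemma Dm_mul (a b c d : K) : Dm a b * Dm c d = (c - b) • Dm a d := by
  ext i j
  fin_cases i <;> fin_cases j <;> simp [Dm, Matrix.mul_apply, Fin.sum_univ_two] <;> ring

/-- the polynomial matrix of a letter -/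
noncomputable def Np (p : M × Bool → K) (e : M → K) (s : M × Bool) :
    Matrix (Fin 2) (Fin 2) K[X] :=
  Matrix.of fun i j => X * C (Dm (p s) (p (linv s)) i j) - C (e s.1 * Dm (p (linv s)) (p s) i j)

lemma Np_apply (p : M × Bool → K) (e : M → K) (s : M × Bool) (i j : Fin 2) :
    Np p e s i j =
      X * C (Dm (p s) (p (linv s)) i j) - C (e s.1 * Dm (p (linv s)) (p s) i j) := rfl

lemma aux_natDegree (a b : K) : (X * C a - C b : K[X]).natDegree ≤ 1 := by
  compute_degree

lemma aux_coeff (a b : K) : (X * C a - C b : K[X]).coeff 1 = a := by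
  simp [coeff_C]

/-- the product of the leading matrices -/
def lead (p : M × Bool → K) (w : List (M × Bool)) : Matrix (Fin 2) (Fin 2) K :=
  (w.map (fun s => Dm (p s) (p (linv s)))).prod

lemma word_coeff (p : M × Bool → K) (e : M → K) (w : List (M × Bool)) (i j : Fin 2) :
    ((w.map (Np p e)).prod i j).natDegree ≤ w.length ∧
    ((w.map (Np p e)).prod i j).coeff w.length = lead p w i j := by
  induction w generalizing i j with
  | nil =>
    simp only [List.map_nil, List.prod_nil, List.length_nil, lead]
    fin_cases i <;> fin_cases j <;> simp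
  | cons s w ih =>
    have h1 : ((s :: w).map (Np p e)).prod i j =
        ∑ l, Np p e s i l * (w.map (Np p e)).prod l j := by
      rw [List.map_cons, List.prod_cons, Matrix.mul_apply]
    have h2 : lead p (s :: w) i j = ∑ l, Dm (p s) (p (linv s)) i l * lead p w l j := by
      unfold lead
      rw [List.map_cons, List.prod_cons, Matrix.mul_apply]
    have hlen : (s :: w).length = 1 + w.length := by simp [add_comm]
    rw [h1, h2, hlen]
    constructor
    · apply natDegree_sum_le_of_forall_le
      intro l _
      exact natDegree_mul_le_of_le (by rw [Np_apply]; exact aux_natDegree _ _) (ih l j).1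
    · rw [finsetSum_coeff]
      apply Finset.sum_congr rfl
      intro l _
      rw [coeff_mul_add_eq_of_natDegree_le (by rw [Np_apply]; exact aux_natDegree _ _) (ih l j).1,
        Np_apply, aux_coeff, (ih l j).2]

lemma lead_eq [IsDomain K] {p : M × Bool → K} (hp : Function.Injective p) (w : List (M × Bool)) :
    ∀ s, Red (s :: w) → ∀ l, (s :: w).getLast? = some l →
      ∃ γ : K, γ ≠ 0 ∧ lead p (s :: w) = γ • Dm (p s) (p (linv l)) := by
  induction w with
  | nil =>
    intro s _ l hl
    simp at hl
    subst hl
    refine ⟨1, one_ne_zero, ?_⟩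
    unfold lead
    simp
  | cons t w ih =>
    intro s hr l hl
    rw [List.getLast?_cons_cons] at hl
    obtain ⟨γ, hγ, h⟩ := ih t hr.tail l hl
    refine ⟨γ * (p t - p (linv s)), mul_ne_zero hγ ?_, ?_⟩
    · rw [sub_ne_zero]
      intro heq
      have := hp heq
      unfold Red at hr
      rw [List.isChain_cons_cons] at hr
      exact hr.1 this
    · have h3 : lead p (s :: t :: w) = Dm (p s) (p (linv s)) * lead p (t :: w) := by
        unfold lead
        rw [List.map_cons, List.prod_cons]
      rw [h3, h, Matrix.mul_smul, Dm_mul, smul_smul]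

section eval

variable [Algebra K ℝ] {τ : ℝ}

/-- the real matrix of a letter -/
noncomputable def Nr (p : M × Bool → K) (e : M → K) (τ : ℝ) (s : M × Bool) :
    Matrix (Fin 2) (Fin 2) ℝ :=
  (Polynomial.aeval τ).toRingHom.mapMatrix (Np p e s)

lemma word_eval (p : M × Bool → K) (e : M → K) (τ : ℝ) (w : List (M × Bool)) :
    (w.map (Nr p e τ)).prod =
      (Polynomial.aeval (R := K) τ).toRingHom.mapMatrix (w.map (Np p e)).prod := by
  rw [map_list_prod, List.map_map]
  rfl

lemma word_eval_apply (p : M × Bool → K) (e : M → K) (τ : ℝ) (w : List (M × Bool))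
    (i j : Fin 2) :
    (w.map (Nr p e τ)).prod i j =
      Polynomial.aeval (R := K) τ ((w.map (Np p e)).prod i j) := by
  rw [word_eval]
  rfl

lemma ne_zero_of_coeff (hτ : Transcendental K τ) {P : K[X]} {n : ℕ} (h : P.coeff n ≠ 0) :
    Polynomial.aeval (R := K) τ P ≠ 0 := by
  intro h0
  rw [transcendental_iff] at hτ
  have := hτ P h0
  rw [this] at h
  simp at h

/-- nonempty reduced words have a nonzero lower left entry -/
lemma word_ne [IsDomain K] (hτ : Transcendental K τ) {p : M × Bool → K} (hp : Function.Injective p)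
    (e : M → K) {w : List (M × Bool)} (hw : Red w) (h0 : w ≠ []) :
    (w.map (Nr p e τ)).prod 1 0 ≠ 0 := by
  rw [word_eval_apply]
  apply ne_zero_of_coeff hτ (n := w.length)
  rw [(word_coeff p e w 1 0).2]
  cases w with
  | nil => exact absurd rfl h0
  | cons s w =>
    obtain ⟨γ, hγ, h⟩ := lead_eq hp w s hw ((s :: w).getLast (by simp))
      (List.getLast?_eq_some_getLast _)
    rw [h]
    simpa [Dm] using hγ

/-- cyclically reduced words have a nonzero trace -/
lemma word_trace [IsDomain K] (hτ : Transcendental K τ) {p : M × Bool → K} (hp : Function.Injective p)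
    (e : M → K) {s : M × Bool} {w : List (M × Bool)} (hw : Red (s :: w)) {l : M × Bool}
    (hl : (s :: w).getLast? = some l) (hsl : s ≠ linv l) :
    (((s :: w).map (Nr p e τ)).prod).trace ≠ 0 := by
  rw [Matrix.trace_fin_two, word_eval_apply, word_eval_apply, ← map_add]
  apply ne_zero_of_coeff hτ (n := (s :: w).length)
  rw [coeff_add, (word_coeff p e _ 0 0).2, (word_coeff p e _ 1 1).2]
  obtain ⟨γ, hγ, h⟩ := lead_eq hp w s hw l hl
  rw [h]
  have : (γ • Dm (p s) (p (linv l))) 0 0 + (γ • Dm (p s) (p (linv l))) 1 1 =
      γ * (p s - p (linv l)) := by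
    simp [Dm]
    ring
  rw [this]
  apply mul_ne_zero hγ
  rw [sub_ne_zero]
  intro heq
  exact hsl (hp heq)

end eval

end Helper826.Cong
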