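import Pool.Agent.Helper826_Cong.Cycle
import Pool.Agent.Helper826_Cong.Poly
import Pool.Agent.Helper826_Cong.Generic

/-!
# The generic family of isometries with prescribed orientation characters
-/

set_option autoImplicit false

open Matrix Cardinal UpperHalfPlane

namespace Helper826.Cong

lemma Dm_map {K : Type*} [CommRing K] [Algebra K ℝ] (a b : K) (i j : Fin 2) :
    algebraMap K ℝ (Dm a b i j) = Dm (algebraMap K ℝ a) (algebraMap K ℝ b) i j := by
  fin_cases i <;> fin_cases j <;> simp [Dm]

section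

variable {M : Type} {K : Type} [CommRing K] [Algebra K ℝ] {τ : ℝ}

/-- the signs in `K` -/
def sg (ε : M → ℤˣ) : M → K := fun i => (((ε i : ℤˣ) : ℤ) : K)

lemma Nr_apply (p : M × Bool → K) (ε : M → ℤˣ) (s : M × Bool) (i j : Fin 2) :
    Nr p (sg ε) τ s i j =
      τ * Dm (algebraMap K ℝ (p s)) (algebraMap K ℝ (p (linv s))) i j -
      (((ε s.1 : ℤˣ) : ℤ) : ℝ) *
        Dm (algebraMap K ℝ (p (linv s))) (algebraMap K ℝ (p s)) i j := by
  unfold Nr
  have : (Polynomial.aeval (R := K) τ).toRingHom.mapMatrix (Np p (sg ε) s) i j =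
      Polynomial.aeval (R := K) τ (Np p (sg ε) s i j) := rfl
  rw [this, Np_apply]
  simp only [map_sub, map_mul, Polynomial.aeval_X, Polynomial.aeval_C, Dm_map, sg, map_intCast]

lemma Nr_det (p : M × Bool → K) (ε : M → ℤˣ) (s : M × Bool) :
    (Nr p (sg ε) τ s).det = τ * (((ε s.1 : ℤˣ) : ℤ) : ℝ) *
      (algebraMap K ℝ (p s) - algebraMap K ℝ (p (linv s))) ^ 2 := by
  rw [Matrix.det_fin_two]
  simp only [Nr_apply]
  simp only [Dm, Matrix.of_apply, Matrix.cons_val', Matrix.cons_val_zero, Matrix.cons_val_one,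
    Matrix.cons_val_fin_one]
  ring

lemma Nr_mul_linv (p : M × Bool → K) (ε : M → ℤˣ) (s : M × Bool) :
    Nr p (sg ε) τ s * Nr p (sg ε) τ (linv s) = (-(τ * (((ε s.1 : ℤˣ) : ℤ) : ℝ) *
      (algebraMap K ℝ (p s) - algebraMap K ℝ (p (linv s))) ^ 2)) • (1 : Matrix _ _ ℝ) := by
  ext i j
  rw [Matrix.mul_apply, Fin.sum_univ_two]
  simp only [Nr_apply, linv_linv, Matrix.smul_apply, smul_eq_mul]
  have : (linv s).1 = s.1 := rfl
  rw [this]
  fin_cases i <;> fin_cases j <;>
  simp only [Dm, Matrix.of_apply, Matrix.cons_val', Matrix.cons_val_zero, Matrix.cons_val_one,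
    Matrix.cons_val_fin_one, Fin.zero_eta, Fin.mk_one, Fin.isValue, Matrix.one_apply_eq, ne_eq,
    zero_ne_one, one_ne_zero, not_false_eq_true, Matrix.one_apply_ne] <;> ring

/-- the real matrix of a word -/
noncomputable def V (p : M × Bool → K) (ε : M → ℤˣ) (τ : ℝ) (w : List (M × Bool)) :
    Matrix (Fin 2) (Fin 2) ℝ := (w.map (Nr p (sg ε) τ)).prod

lemma V_cons (p : M × Bool → K) (ε : M → ℤˣ) (τ : ℝ) (s : M × Bool) (w : List (M × Bool)) :
    V p ε τ (s :: w) = Nr p (sg ε) τ s * V p ε τ w := by
  unfold V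
  rw [List.map_cons, List.prod_cons]

lemma V_append (p : M × Bool → K) (ε : M → ℤˣ) (τ : ℝ) (v w : List (M × Bool)) :
    V p ε τ (v ++ w) = V p ε τ v * V p ε τ w := by
  unfold V
  rw [List.map_append, List.prod_append]

lemma sq_pos_letter {p : M × Bool → K} (hp : Function.Injective (fun s => algebraMap K ℝ (p s)))
    (s : M × Bool) : 0 < (algebraMap K ℝ (p s) - algebraMap K ℝ (p (linv s))) ^ 2 := by
  have : algebraMap K ℝ (p s) - algebraMap K ℝ (p (linv s)) ≠ 0 := by
    rw [sub_ne_zero]
    intro h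
    exact linv_ne s (hp h).symm
  positivity

lemma V_det {p : M × Bool → K} (hp : Function.Injective (fun s => algebraMap K ℝ (p s)))
    (ε : M → ℤˣ) (hτ : 0 < τ) (w : List (M × Bool)) :
    ∃ c : ℝ, 0 < c ∧ (V p ε τ w).det =
      c * ((((w.map (fun s => ε s.1)).prod : ℤˣ) : ℤ) : ℝ) := by
  induction w with
  | nil => exact ⟨1, one_pos, by simp [V]⟩
  | cons s w ih =>
    obtain ⟨c, hc, h⟩ := ih
    refine ⟨τ * (algebraMap K ℝ (p s) - algebraMap K ℝ (p (linv s))) ^ 2 * c, ?_, ?_⟩
    · have := sq_pos_letter hp s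
      positivity
    · rw [V_cons, Matrix.det_mul, Nr_det, h, List.map_cons, List.prod_cons]
      push_cast
      ring

lemma ε_ne (ε : ℤˣ) : ((ε : ℤ) : ℝ) ≠ 0 := by
  rcases Int.units_eq_one_or ε with rfl | rfl <;> simp

/-- the generators -/
noncomputable def gen (p : M × Bool → K)
    (hp : Function.Injective (fun s => algebraMap K ℝ (p s)))
    (ε : M → ℤˣ) (hτ : 0 < τ) (i : M) : GL (Fin 2) ℝ :=
  Matrix.GeneralLinearGroup.mkOfDetNeZero (Nr p (sg ε) τ (i, true)) (by
    rw [Nr_det]
    have h1 := sq_pos_letter hp (i, true)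
    have h2 := ε_ne (ε i)
    exact mul_ne_zero (mul_ne_zero hτ.ne' h2) h1.ne')

/-- the representation of the free group -/
noncomputable def rep (p : M × Bool → K)
    (hp : Function.Injective (fun s => algebraMap K ℝ (p s)))
    (ε : M → ℤˣ) (hτ : 0 < τ) : FreeGroup M →* GL (Fin 2) ℝ :=
  FreeGroup.lift (gen p hp ε hτ)

variable {p : M × Bool → K} (hp : Function.Injective (fun s => algebraMap K ℝ (p s)))
  (ε : M → ℤˣ) (hτ : 0 < τ)

lemma rep_letter (s : M × Bool) :
    ∃ c : ℝ, c ≠ 0 ∧ (rep p hp ε hτ (FreeGroup.mk [s])).val = c • Nr p (sg ε) τ s := by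
  rcases s with ⟨i, b⟩
  cases b
  · have h1 : rep p hp ε hτ (FreeGroup.mk [(i, false)]) = (gen p hp ε hτ i)⁻¹ := by
      unfold rep
      rw [FreeGroup.lift_mk]
      simp
    rw [h1]
    set d : ℝ := -(τ * (((ε i : ℤˣ) : ℤ) : ℝ) *
      (algebraMap K ℝ (p (i, true)) - algebraMap K ℝ (p (linv (i, true)))) ^ 2) with hd
    have hd0 : d ≠ 0 := by
      have h1 := sq_pos_letter hp (i, true)
      have h2 := ε_ne (ε i)
      exact neg_ne_zero.mpr (mul_ne_zero (mul_ne_zero hτ.ne' h2) h1.ne')
    refine ⟨d⁻¹, inv_ne_zero hd0, ?_⟩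
    have h2 : (gen p hp ε hτ i).val * (d⁻¹ • Nr p (sg ε) τ (i, false)) = 1 := by
      have h3 : (gen p hp ε hτ i).val = Nr p (sg ε) τ (i, true) := rfl
      have h4 := Nr_mul_linv (τ := τ) p ε (i, true)
      have h5 : linv (i, true) = (i, false) := rfl
      rw [h3, Matrix.mul_smul, ← h5, h4, ← hd, smul_smul, inv_mul_cancel₀ hd0, one_smul]
    exact Units.inv_eq_of_mul_eq_one_right h2
  · refine ⟨1, one_ne_zero, ?_⟩
    have h1 : rep p hp ε hτ (FreeGroup.mk [(i, true)]) = gen p hp ε hτ i := by
      unfold rep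
      rw [FreeGroup.lift_mk]
      simp
    rw [h1, one_smul]
    rfl

lemma mk_cons_eq (s : M × Bool) (w : List (M × Bool)) :
    FreeGroup.mk (s :: w) = FreeGroup.mk [s] * FreeGroup.mk w := by
  rw [FreeGroup.mul_mk]
  rfl

lemma rep_word (w : List (M × Bool)) :
    ∃ c : ℝ, c ≠ 0 ∧ (rep p hp ε hτ (FreeGroup.mk w)).val = c • V p ε τ w := by
  induction w with
  | nil =>
    refine ⟨1, one_ne_zero, ?_⟩
    have : (FreeGroup.mk ([] : List (M × Bool))) = 1 := rfl
    rw [this, map_one, one_smul]
    simp [V]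
  | cons s w ih =>
    obtain ⟨c, hc, h⟩ := ih
    obtain ⟨c', hc', h'⟩ := rep_letter hp ε hτ s
    refine ⟨c' * c, mul_ne_zero hc' hc, ?_⟩
    rw [mk_cons_eq, map_mul, Matrix.GeneralLinearGroup.coe_mul, h, h', V_cons,
      Matrix.smul_mul, Matrix.mul_smul, smul_smul]

/-- the action of words -/
lemma walk_eq (w : List (M × Bool)) (x : ℍ) :
    walk (fun i => (MulAction.toPerm (gen p hp ε hτ i)⁻¹ : Equiv.Perm ℍ)) w x =
      (rep p hp ε hτ (FreeGroup.mk w))⁻¹ • x := by
  induction w generalizing x with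
  | nil =>
    have : (FreeGroup.mk ([] : List (M × Bool))) = 1 := rfl
    rw [this, map_one, inv_one, one_smul]
    rfl
  | cons s w ih =>
    rw [walk_cons, ih, mk_cons_eq, map_mul, _root_.mul_inv_rev, mul_smul]
    congr 1
    rcases s with ⟨i, b⟩
    cases b
    · have h1 : rep p hp ε hτ (FreeGroup.mk [(i, false)]) = (gen p hp ε hτ i)⁻¹ := by
        unfold rep
        rw [FreeGroup.lift_mk]
        simp
      rw [h1]
      unfold act
      simp [MulAction.toPerm]
    · have h1 : rep p hp ε hτ (FreeGroup.mk [(i, true)]) = gen p hp ε hτ i := by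
        unfold rep
        rw [FreeGroup.lift_mk]
        simp
      rw [h1]
      unfold act
      simp [MulAction.toPerm]

include hp in
lemma p_inj : Function.Injective p := fun a b h => hp (by simp [h])

variable [IsDomain K] (htr : Transcendental K τ)
include hp hτ htr

/-- orientation reversing words have nonzero trace -/
lemma trace_ne (n : ℕ) : ∀ w : List (M × Bool), w.length ≤ n → Red w →
    (w.map (fun s => ε s.1)).prod = -1 → (V p ε τ w).trace ≠ 0 := by
  induction n with
  | zero =>
    intro w hw hr hs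
    have : w = [] := by simpa using hw
    subst this
    simp at hs
  | succ n ih =>
    intro w hw hr hs
    cases w with
    | nil => simp at hs
    | cons s w =>
      obtain h | ⟨u, l, hul⟩ := List.eq_nil_or_concat w
      · subst h
        unfold V
        exact word_trace htr (p_inj hp) _ hr (l := s) (by simp) (linv_ne s).symm
      · rw [List.concat_eq_append] at hul
        subst hul
        by_cases hsl : s = linv l
        · subst hsl
          have h1 : (V p ε τ (linv l :: (u ++ [l]))).trace =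
              (-(τ * (((ε l.1 : ℤˣ) : ℤ) : ℝ) *
                (algebraMap K ℝ (p l) - algebraMap K ℝ (p (linv l))) ^ 2)) *
                (V p ε τ u).trace := by
            rw [V_cons, V_append, ← Matrix.mul_assoc, Matrix.trace_mul_comm]
            have h2 : V p ε τ [l] = Nr p (sg ε) τ l := by simp [V]
            rw [h2, ← Matrix.mul_assoc, Nr_mul_linv, Matrix.smul_mul, Matrix.one_mul,
              Matrix.trace_smul, smul_eq_mul]
          rw [h1]
          apply mul_ne_zero
          · have h1 := sq_pos_letter hp l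
            have h2 := ε_ne (ε l.1)
            exact neg_ne_zero.mpr (mul_ne_zero (mul_ne_zero hτ.ne' h2) h1.ne')
          · apply ih u
            · simp at hw
              omega
            · exact (Red.tail hr).left
            · rw [List.map_cons, List.prod_cons, List.map_append, List.prod_append] at hs
              simp only [List.map_cons, List.map_nil, List.prod_cons, List.prod_nil,
                mul_one] at hs
              have h3 : (linv l).1 = l.1 := rfl
              rw [h3] at hs
              have h4 : ε l.1 * ε l.1 = 1 := Int.units_mul_self _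
              calc (u.map (fun s => ε s.1)).prod
                  = (ε l.1 * ε l.1) * (u.map (fun s => ε s.1)).prod := by rw [h4, one_mul]
                _ = ε l.1 * ((u.map (fun s => ε s.1)).prod * ε l.1) := by
                    rw [mul_assoc, mul_comm (ε l.1) ((u.map (fun s => ε s.1)).prod)]
                _ = -1 := hs
        · unfold V
          exact word_trace htr (p_inj hp) _ hr (l := l)
            (by rw [← List.cons_append, List.getLast?_concat]) hsl

/-- elements with a fixed point preserve the orientation -/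
lemma pos_of_fix {w : List (M × Bool)} {x : ℍ} (hx : rep p hp ε hτ (FreeGroup.mk w) • x = x) :
    0 < (rep p hp ε hτ (FreeGroup.mk w)).val.det := by
  classical
  by_contra hneg
  have hne : (rep p hp ε hτ (FreeGroup.mk w)).val.det ≠ 0 :=
    (rep p hp ε hτ (FreeGroup.mk w)).det_ne_zero
  have hlt : (rep p hp ε hτ (FreeGroup.mk w)).val.det < 0 :=
    lt_of_le_of_ne (not_lt.mp hneg) hne
  have htr0 := (exists_gl_smul_eq_self_iff_trace_eq_zero hlt).mp ⟨x, hx⟩
  -- pass to the reduced word
  have hmk : FreeGroup.mk w = FreeGroup.mk (FreeGroup.reduce w) := FreeGroup.reduce.self.symm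
  set w' := FreeGroup.reduce w with hw'
  have hred : Red w' := by
    rw [red_iff_isReduced, FreeGroup.isReduced_iff_reduce_eq, hw', FreeGroup.reduce.idem]
  rw [hmk] at hlt htr0
  obtain ⟨c, hc, h⟩ := rep_word hp ε hτ w'
  rw [h] at hlt htr0
  obtain ⟨c', hc', h'⟩ := V_det hp ε hτ w'
  rw [Matrix.det_smul, h', Fintype.card_fin] at hlt
  rw [Matrix.trace_smul, smul_eq_mul] at htr0
  have hV : (V p ε τ w').trace = 0 := (mul_eq_zero.mp htr0).resolve_left hc
  refine trace_ne hp ε hτ htr w'.length w' le_rfl hred ?_ hV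
  rcases Int.units_eq_one_or ((w'.map (fun s => ε s.1)).prod) with h1 | h1
  · rw [h1] at hlt
    simp at hlt
    have : 0 < c ^ 2 * c' := by positivity
    linarith
  · exact h1

/-- the representation is faithful -/
lemma rep_injective : Function.Injective (rep p hp ε hτ) := by
  classical
  rw [injective_iff_map_eq_one]
  intro u hu
  by_contra hne
  have h1 : u = FreeGroup.mk u.toWord := FreeGroup.mk_toWord.symm
  have h2 : u.toWord ≠ [] := by
    intro h
    exact hne (FreeGroup.toWord_eq_nil_iff.mp h)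
  have h3 : Red u.toWord := by
    rw [red_iff_isReduced]
    exact FreeGroup.isReduced_toWord
  obtain ⟨c, hc, h⟩ := rep_word hp ε hτ u.toWord
  rw [← h1, hu] at h
  have h4 := word_ne htr (p_inj hp) (sg ε) h3 h2
  have h5 := congrFun (congrFun h 1) 0
  rw [Matrix.smul_apply, smul_eq_mul] at h5
  have h6 : (V p ε τ u.toWord) 1 0 = 0 := by
    have : ((1 : GL (Fin 2) ℝ).val : Matrix (Fin 2) (Fin 2) ℝ) 1 0 = 0 := by simp
    rw [this] at h5
    exact (mul_eq_zero.mp h5.symm).resolve_left hc
  exact h4 h6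

lemma rep_comm :
    Comm (fun i => (MulAction.toPerm (gen p hp ε hτ i)⁻¹ : Equiv.Perm ℍ)) := by
  intro x v w hv hw
  rw [walk_eq, inv_smul_eq_iff] at hv hw
  have h1 := commute_of_fix (pos_of_fix hp ε hτ htr hv.symm) (pos_of_fix hp ε hτ htr hw.symm)
    hv.symm hw.symm
  rw [← map_mul, ← map_mul] at h1
  have h2 := rep_injective hp ε hτ htr h1
  rwa [FreeGroup.mul_mk, FreeGroup.mul_mk] at h2

lemma rep_par (x : ℍ) (w : List (M × Bool))
    (hw : walk (fun i => (MulAction.toPerm (gen p hp ε hτ i)⁻¹ : Equiv.Perm ℍ)) w x = x) :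
    (w.map (fun s => ε s.1)).prod = 1 := by
  rw [walk_eq, inv_smul_eq_iff] at hw
  have h1 := pos_of_fix hp ε hτ htr hw.symm
  obtain ⟨c, hc, h⟩ := rep_word hp ε hτ w
  obtain ⟨c', hc', h'⟩ := V_det hp ε hτ w
  rw [h, Matrix.det_smul, h', Fintype.card_fin] at h1
  rcases Int.units_eq_one_or ((w.map (fun s => ε s.1)).prod) with h2 | h2
  · exact h2
  · exfalso
    rw [h2] at h1
    simp at h1
    have : 0 < c ^ 2 * c' := by positivity
    linarith

end

/-- **Generic isometries**: for every family of signs indexed by a set of cardinality at most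
the continuum, there are isometries of the hyperbolic plane whose point stabilizers are
commutative in the free group and which contain only even words. -/
theorem exists_isometries (M : Type) (hM : #M ≤ 𝔠) (ε : M → ℤˣ) :
    ∃ G : M → GL (Fin 2) ℝ,
      Comm (fun i => (MulAction.toPerm (G i) : Equiv.Perm ℍ)) ∧
      ∀ (x : ℍ) (w : List (M × Bool)),
        walk (fun i => (MulAction.toPerm (G i) : Equiv.Perm ℍ)) w x = x →
        (w.map (fun s => ε s.1)).prod = 1 := by
  have hN : #(M × Bool) ≤ 𝔠 := by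
    rw [Cardinal.mk_prod]
    simp only [Cardinal.lift_id, Cardinal.mk_fintype, Fintype.card_bool]
    exact Cardinal.mul_le_of_le Cardinal.aleph0_le_continuum hM
      ((Cardinal.natCast_lt_aleph0).le.trans Cardinal.aleph0_le_continuum)
  obtain ⟨x, τ, hx, hτ, htr⟩ := exists_generic (M × Bool) hN
  set K := Algebra.adjoin ℚ (Set.range x)
  let p : M × Bool → K := fun s => ⟨x s, Algebra.subset_adjoin ⟨s, rfl⟩⟩
  have hp : Function.Injective (fun s => algebraMap K ℝ (p s)) := hx
  refine ⟨fun i => (gen p hp ε hτ i)⁻¹, rep_comm hp ε hτ htr, ?_⟩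
  intro x w hw
  exact rep_par hp ε hτ htr x w hw

end Helper826.Cong
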