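import Pool.Agent.Helper826_Cong.Cycle

/-!
# Minimal cycles and their labels
-/

set_option autoImplicit false

namespace Helper826.Cong

variable {M X I : Type*}

lemma val_succ_of_lt {k : ℕ} [NeZero k] {a : ZMod k} (h : a.val + 1 < k) :
    (a + 1).val = a.val + 1 := by
  rw [ZMod.val_add, ZMod.val_one_eq_one_mod, Nat.add_mod_mod, Nat.mod_eq_of_lt h]

lemma succ_eq_zero_of {k : ℕ} [NeZero k] {a : ZMod k} (h : a.val + 1 = k) : a + 1 = 0 := by
  have h2 : ((a.val + 1 : ℕ) : ZMod k) = 0 := by rw [h]; simp
  push_cast at h2
  rwa [ZMod.natCast_zmod_val] at h2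

/-- a minimal nonempty reduced closed walk outside `D` gives a cycle -/
lemma exists_cycle {g : M → Equiv.Perm X} {D : Set X} (hD : ∀ x ∉ D, ∀ t, act g t x ∉ D)
    (ε : M → ℤˣ)
    (hpar : ∀ (x : X) (w : List (M × Bool)), Red w → w ≠ [] → walk g w x = x →
      (w.map (fun s => ε s.1)).prod = 1)
    (hex : ∃ x ∉ D, ∃ w : List (M × Bool), w ≠ [] ∧ Red w ∧ walk g w x = x) :
    ∃ (k : ℕ) (_ : NeZero k) (s : ZMod k → M × Bool) (y : ZMod k → X) (c : ZMod k → ℤˣ),
      (∀ a, act g (s a) (y a) = y (a + 1)) ∧ (∀ a, s (a + 1) ≠ linv (s a)) ∧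
      Function.Injective y ∧ (∀ a, y a ∉ D) ∧ (∀ a, c (a + 1) = c a * ε (s a).1) := by
  classical
  have hP : ∃ n : ℕ, ∃ x ∉ D, ∃ w : List (M × Bool), w ≠ [] ∧ Red w ∧ walk g w x = x ∧
      w.length = n := by
    obtain ⟨x, hx, w, h1, h2, h3⟩ := hex
    exact ⟨w.length, x, hx, w, h1, h2, h3, rfl⟩
  obtain ⟨x, hx, w, hw0, hwr, hwc, hwl⟩ := Nat.find_spec hP
  set k := Nat.find hP with hk
  have hmin : ∀ (x' : X) (w' : List (M × Bool)), x' ∉ D → w' ≠ [] → Red w' →
      walk g w' x' = x' → k ≤ w'.length := by
    intro x' w' h1 h2 h3 h4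
    exact Nat.find_min' hP ⟨x', h1, w', h2, h3, h4, rfl⟩
  have hk0 : k ≠ 0 := by
    rw [← hwl]
    simpa using hw0
  have : NeZero k := ⟨hk0⟩
  have hlt : ∀ a : ZMod k, a.val < w.length := fun a => by
    rw [hwl]; exact ZMod.val_lt a
  have houtside : ∀ (u : List (M × Bool)) (x : X), x ∉ D → walk g u x ∉ D := by
    intro u
    induction u with
    | nil => intro x hx; exact hx
    | cons t u ih => intro x hx; exact ih _ (hD x hx t)
  have htake : ∀ n (h : n < w.length), w.take (n + 1) = w.take n ++ [w[n]] := by
    intro n h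
    rw [List.take_add_one, List.getElem?_eq_getElem h]
    rfl
  refine ⟨k, inferInstance, fun a => w[a.val]'(hlt a), fun a => walk g (w.take a.val) x,
    fun a => ((w.take a.val).map (fun s => ε s.1)).prod, ?_, ?_, ?_, ?_, ?_⟩
  · intro a
    have h1 : act g (w[a.val]'(hlt a)) (walk g (w.take a.val) x) =
        walk g (w.take (a.val + 1)) x := by
      rw [htake _ (hlt a), walk_append]
      rfl
    beta_reduce
    rw [h1]
    rcases lt_or_eq_of_le (Nat.succ_le_of_lt (ZMod.val_lt a)) with h | h
    · rw [val_succ_of_lt h]
    · rw [succ_eq_zero_of h]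
      have : w.take (a.val + 1) = w := by
        rw [List.take_of_length_le]
        rw [hwl]; exact h.ge
      rw [this, hwc]
      simp
  · intro a
    rcases lt_or_eq_of_le (Nat.succ_le_of_lt (ZMod.val_lt a)) with h | h
    · have h2 : a.val + 1 < w.length := by rw [hwl]; exact h
      have := (List.isChain_iff_getElem.mp hwr) a.val h2
      have h3 : w[(a + 1).val]'(hlt _) = w[a.val + 1]'h2 := by
        congr 1
        exact val_succ_of_lt h
      simp only [h3]
      exact this
    · have h3 : w[(a + 1).val]'(hlt _) = w[0]'(by rw [hwl]; omega) := by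
        congr 1
        rw [succ_eq_zero_of h]
        simp
      simp only [h3]
      intro hcon
      -- contradiction with minimality
      cases w with
      | nil => exact hw0 rfl
      | cons t u =>
        obtain h4 | ⟨u', d, hu⟩ := List.eq_nil_or_concat u
        · subst h4
          have : a.val = 0 := by
            simp at hwl
            have := ZMod.val_lt a
            omega
          simp only [this, List.getElem_cons_zero] at hcon
          exact linv_ne t hcon.symm
        · rw [List.concat_eq_append] at hu
          subst hu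
          have h5 : (t :: (u' ++ [d]))[a.val]'(hlt a) = d := by
            have h6 : a.val = (u'.length + 1) := by
              simp at hwl
              omega
            simp only [h6]
            simp
          rw [h5] at hcon
          simp only [List.getElem_cons_zero] at hcon
          subst hcon
          have hx' : walk g u' (act g (linv d) x) = act g (linv d) x := by
            rw [walk_cons, walk_append] at hwc
            simp only [walk_cons, walk_nil] at hwc
            have := congrArg (act g (linv d)) hwc
            rwa [act_linv] at this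
          by_cases hu' : u' = []
          · subst hu'
            unfold Red at hwr
            simp at hwr
          · have h7 := hmin (act g (linv d) x) u' (hD x hx _) hu' (by
              exact (Red.tail hwr).left) hx'
            simp at hwl
            omega
  · -- injectivity
    have key : ∀ a b : ZMod k, a.val < b.val →
        walk g (w.take a.val) x ≠ walk g (w.take b.val) x := by
      intro a b hab heq
      have h1 : w.take b.val = w.take a.val ++ (w.take b.val).drop a.val := by
        conv_lhs => rw [← List.take_append_drop a.val (w.take b.val)]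
        rw [List.take_take, min_eq_left hab.le]
      have h2 : walk g ((w.take b.val).drop a.val) (walk g (w.take a.val) x) =
          walk g (w.take a.val) x := by
        rw [← walk_append, ← h1, heq]
      have h3 : Red ((w.take b.val).drop a.val) := by
        have h4 : Red (w.take b.val) := by
          have : Red (w.take b.val ++ w.drop b.val) := by
            rw [List.take_append_drop]; exact hwr
          exact this.left
        rw [h1] at h4
        exact h4.right
      have h5 : ((w.take b.val).drop a.val).length = b.val - a.val := by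
        rw [List.length_drop, List.length_take, min_eq_left (hlt b).le]
      have h6 := hmin _ _ (houtside _ _ hx) (by
        intro h
        rw [h] at h5
        simp at h5
        omega) h3 h2
      rw [h5] at h6
      have := ZMod.val_lt b
      omega
    intro a b hab
    rcases lt_trichotomy a.val b.val with h | h | h
    · exact absurd hab (key a b h)
    · exact ZMod.val_injective k h
    · exact absurd hab.symm (key b a h)
  · intro a
    exact houtside _ _ hx
  · intro a
    have h1 : ((w.take a.val).map (fun s => ε s.1)).prod * ε (w[a.val]'(hlt a)).1 =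
        ((w.take (a.val + 1)).map (fun s => ε s.1)).prod := by
      rw [htake _ (hlt a), List.map_append, List.prod_append]
      simp
    beta_reduce
    rw [h1]
    rcases lt_or_eq_of_le (Nat.succ_le_of_lt (ZMod.val_lt a)) with h | h
    · rw [val_succ_of_lt h]
    · rw [succ_eq_zero_of h]
      have : w.take (a.val + 1) = w := by
        rw [List.take_of_length_le]
        rw [hwl]; exact h.ge
      rw [this, hpar x w hwr hw0 hwc]
      simp

lemma closed_bits {k : ℕ} [NeZero k] (T : ZMod k → ℤˣ → ℤˣ → Prop)
    (htot : ∀ a p, ∃ q, T a p q) (e e' c : ZMod k → ℤˣ) (hT : ∀ a, T a (e' a) (e a))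
    (hc : ∀ a, c (a + 1) = c a * (e a * e' (a + 1))) :
    ∃ β : ZMod k → ℤˣ, ∀ a, T (a + 1) (β a) (β (a + 1)) := by
  have hu2 : ∀ u v : ℤˣ, u ≠ v → u = -v := by decide
  by_cases h2 : ∃ a0 b, ∀ p, T a0 p b
  · obtain ⟨a0, b, hb⟩ := h2
    choose f hf using htot
    let β' : ℕ → ℤˣ := fun n => Nat.rec b (fun n p => f (a0 + (n + 1 : ℕ)) p) n
    have hβ0 : β' 0 = b := rfl
    have hβs : ∀ n, β' (n + 1) = f (a0 + (n + 1 : ℕ)) (β' n) := fun n => rfl
    refine ⟨fun a => β' (a - a0).val, ?_⟩
    intro a
    have e1 : a + 1 - a0 = (a - a0) + 1 := by ring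
    simp only [e1]
    rcases lt_or_eq_of_le (Nat.succ_le_of_lt (ZMod.val_lt (a - a0))) with h | h
    · rw [val_succ_of_lt h, hβs]
      have e2 : a0 + (((a - a0).val + 1 : ℕ) : ZMod k) = a + 1 := by
        push_cast
        rw [ZMod.natCast_zmod_val]
        ring
      rw [e2]
      exact hf _ _
    · have e3 := succ_eq_zero_of h
      rw [e3]
      have e4 : a + 1 = a0 := by
        rw [← e1] at e3
        exact sub_eq_zero.mp e3
      rw [e4]
      simp only [ZMod.val_zero, hβ0]
      exact hb _
  · push Not at h2
    have key : ∀ a u, T a (e' a * u) (e a * u) := by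
      intro a u
      rcases Int.units_eq_one_or u with rfl | rfl
      · simpa using hT a
      · obtain ⟨p, hp⟩ := h2 a (e a)
        have hp' : p = -(e' a) := by
          apply hu2
          rintro rfl
          exact hp (hT a)
        subst hp'
        obtain ⟨q, hq⟩ := htot a (-(e' a))
        have hq' : q = -(e a) := by
          apply hu2
          rintro rfl
          exact hp hq
        subst hq'
        simpa using hq
    refine ⟨fun a => e a * c a, ?_⟩
    intro a
    have := key (a + 1) (c (a + 1))
    have e1 : e' (a + 1) * c (a + 1) = e a * c a := by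
      rw [hc]
      have : e' (a + 1) * e' (a + 1) = 1 := Int.units_mul_self _
      calc e' (a + 1) * (c a * (e a * e' (a + 1)))
          = (e' (a + 1) * e' (a + 1)) * (e a * c a) := by
            rw [mul_left_comm, mul_left_comm (e' (a + 1)) (e a), mul_left_comm (c a) (e a),
              mul_comm (c a), ← mul_assoc (e a), mul_comm (e a) (e' (a + 1) * e' (a + 1)),
              mul_assoc]
        _ = e a * c a := by rw [this, one_mul]
    rw [e1] at this
    exact this

open Classical in
/-- membership as a sign -/
noncomputable def bit (j : I) (A : Set I) : ℤˣ := if j ∈ A then 1 else -1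

lemma bit_eq_iff (j j' : I) (A B : Set I) : bit j A = bit j' B ↔ (j ∈ A ↔ j' ∈ B) := by
  classical
  unfold bit
  by_cases h1 : j ∈ A <;> by_cases h2 : j' ∈ B <;> simp [h1, h2]

lemma exists_bit {A : Set I} (h1 : A.Nonempty) (h2 : A ≠ Set.univ) (p : ℤˣ) :
    ∃ j, bit j A = p := by
  classical
  rcases Int.units_eq_one_or p with rfl | rfl
  · obtain ⟨j, hj⟩ := h1
    exact ⟨j, by simp [bit, hj]⟩
  · obtain ⟨j, hj⟩ := (Set.ne_univ_iff_exists_notMem _).mp h2
    exact ⟨j, by simp [bit, hj]⟩

/-- labels along a cycle -/
lemma exists_labels {k : ℕ} [NeZero k] (s : ZMod k → M × Bool) (O : M × Bool → Set I)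
    (hO1 : ∀ s, (O s).Nonempty) (hO2 : ∀ s, O s ≠ Set.univ) (j₀ : I) (ε : M → ℤˣ)
    (hε : ∀ i, ε i = 1 ↔ (j₀ ∈ O (i, true) ↔ j₀ ∈ O (i, false))) (c : ZMod k → ℤˣ)
    (hc : ∀ a, c (a + 1) = c a * ε (s a).1) :
    ∃ j : ZMod k → I, ∀ a, (j a ∈ O (s a) ↔ j (a + 1) ∈ O (linv (s a))) := by
  classical
  obtain ⟨β, hβ⟩ := closed_bits
    (fun a p q => ∃ j : I, bit j (O (linv (s (a - 1)))) = p ∧ bit j (O (s a)) = q)
    (by
      intro a p
      obtain ⟨j, hj⟩ := exists_bit (hO1 (linv (s (a - 1)))) (hO2 _) p
      exact ⟨_, j, hj, rfl⟩)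
    (fun a => bit j₀ (O (s a))) (fun a => bit j₀ (O (linv (s (a - 1))))) c
    (fun a => ⟨j₀, rfl, rfl⟩) (by
      intro a
      rw [hc]
      congr 1
      simp only [add_sub_cancel_right]
      have h1 : ε (s a).1 = 1 ↔ bit j₀ (O (s a)) = bit j₀ (O (linv (s a))) := by
        rw [bit_eq_iff, hε]
        rcases s a with ⟨i, b⟩
        cases b
        · simp only [linv, Bool.not_false]
          exact Iff.comm
        · simp only [linv, Bool.not_true]
      have h2 : ∀ u v w : ℤˣ, (u = 1 ↔ v = w) → u = v * w := by decide
      exact h2 _ _ _ h1)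
  choose f hf1 hf2 using hβ
  refine ⟨fun a => f (a - 1), ?_⟩
  intro a
  have h1 := hf2 (a - 1)
  have h2 := hf1 a
  rw [sub_add_cancel] at h1
  rw [add_sub_cancel_right] at h2
  beta_reduce
  rw [add_sub_cancel_right, ← bit_eq_iff, h1, h2]

end Helper826.Cong
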