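import Pool.Agent.Helper826_Cong.Label

/-!
# Zorn's lemma: a labelling of the whole space
-/

set_option autoImplicit false

namespace Helper826.Cong

variable {M X I : Type*}

/-- good partial labellings -/
structure Good (g : M → Equiv.Perm X) (O : M × Bool → Set I) (G : Set (X × I)) : Prop where
  fn : ∀ x i j, (x, i) ∈ G → (x, j) ∈ G → i = j
  nr : NR g {x | ∃ i, (x, i) ∈ G}
  con : ∀ s x i j, (x, i) ∈ G → (act g s x, j) ∈ G → (i ∈ O s ↔ j ∈ O (linv s))

lemma good_sUnion {g : M → Equiv.Perm X} {O : M × Bool → Set I} (c : Set (Set (X × I)))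
    (hc : ∀ G ∈ c, Good g O G) (hch : IsChain (· ⊆ ·) c) : Good g O (⋃₀ c) := by
  have two : ∀ p ∈ ⋃₀ c, ∀ q ∈ ⋃₀ c, ∃ G ∈ c, p ∈ G ∧ q ∈ G := by
    rintro p ⟨G1, h1, hp⟩ q ⟨G2, h2, hq⟩
    rcases hch.total h1 h2 with h | h
    · exact ⟨G2, h2, h hp, hq⟩
    · exact ⟨G1, h1, hp, h hq⟩
  refine ⟨?_, ?_, ?_⟩
  · intro x i j h1 h2
    obtain ⟨G, hG, h3, h4⟩ := two _ h1 _ h2
    exact (hc G hG).fn x i j h3 h4
  · rintro x ⟨i, hi⟩ s w hr hs ⟨j, hj⟩
    obtain ⟨G, hG, h3, h4⟩ := two _ hi _ hj
    refine (hc G hG).nr x ⟨i, h3⟩ s w hr ?_ ⟨j, h4⟩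
    rintro ⟨l, hl⟩
    exact hs ⟨l, Set.mem_sUnion.mpr ⟨G, hG, hl⟩⟩
  · intro s x i j h1 h2
    obtain ⟨G, hG, h3, h4⟩ := two _ h1 _ h2
    exact (hc G hG).con s x i j h3 h4

lemma dom_union (G H : Set (X × I)) :
    {x | ∃ i, (x, i) ∈ G ∪ H} = {x | ∃ i, (x, i) ∈ G} ∪ {x | ∃ i, (x, i) ∈ H} := by
  ext x
  simp only [Set.mem_union, Set.mem_setOf_eq, exists_or]

/-- the extension step -/
lemma exists_extension {g : M → Equiv.Perm X} (hcomm : Comm g) (ε : M → ℤˣ)
    (hpar : ∀ (x : X) (w : List (M × Bool)), Red w → w ≠ [] → walk g w x = x →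
      (w.map (fun s => ε s.1)).prod = 1)
    (O : M × Bool → Set I)
    (hO1 : ∀ s, (O s).Nonempty) (hO2 : ∀ s, O s ≠ Set.univ) (j₀ : I)
    (hε : ∀ i, ε i = 1 ↔ (j₀ ∈ O (i, true) ↔ j₀ ∈ O (i, false)))
    {G : Set (X × I)} (hG : Good g O G) {y : X} (hy : ∀ i, (y, i) ∉ G) :
    ∃ H, Good g O H ∧ G ⊆ H ∧ ∃ p ∈ H, p ∉ G := by
  classical
  set D : Set X := {x | ∃ i, (x, i) ∈ G} with hDdef
  have hyD : y ∉ D := by
    rintro ⟨i, hi⟩
    exact hy i hi
  by_cases hA : ∃ y ∉ D, ∃ s, act g s y ∈ D
  · -- Case A: a point adjacent to `D`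
    obtain ⟨y, hyD, s, hs⟩ := hA
    obtain ⟨i₁, hi₁⟩ := hs
    obtain ⟨j, hj⟩ := exists_bit (hO1 s) (hO2 s) (bit i₁ (O (linv s)))
    rw [bit_eq_iff] at hj
    have hsD : act g s y ∈ D := ⟨i₁, hi₁⟩
    have hdom : {x | ∃ i, (x, i) ∈ insert (y, j) G} = insert y D := by
      ext x
      simp only [Set.mem_setOf_eq, Set.mem_insert_iff, Prod.mk.injEq, hDdef]
      constructor
      · rintro ⟨i, h | h⟩
        · exact Or.inl h.1
        · exact Or.inr ⟨i, h⟩
      · rintro (h | ⟨i, h⟩)
        · exact ⟨j, Or.inl ⟨h, rfl⟩⟩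
        · exact ⟨i, Or.inr h⟩
    refine ⟨insert (y, j) G, ⟨?_, ?_, ?_⟩, Set.subset_insert _ _, (y, j), Set.mem_insert _ _,
      fun h => hyD ⟨j, h⟩⟩
    · intro x i i' h1 h2
      rw [Set.mem_insert_iff, Prod.mk.injEq] at h1 h2
      rcases h1 with ⟨rfl, rfl⟩ | h1 <;> rcases h2 with ⟨h2, h2'⟩ | h2
      · exact h2'.symm
      · exact absurd ⟨_, h2⟩ hyD
      · subst h2
        exact absurd ⟨_, h1⟩ hyD
      · exact hG.fn x i i' h1 h2
    · rw [hdom]
      exact hG.nr.insert hyD hsD
    · intro t x i i' h1 h2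
      rw [Set.mem_insert_iff, Prod.mk.injEq] at h1 h2
      rcases h1 with ⟨rfl, rfl⟩ | h1 <;> rcases h2 with ⟨h2, h2'⟩ | h2
      · exact absurd h2 (hG.nr.noloop hyD hsD)
      · have ht : t = s := hG.nr.unique hyD hsD ⟨i', h2⟩
        subst ht
        have : i' = i₁ := hG.fn _ _ _ h2 hi₁
        subst this
        exact hj
      · -- `x ∈ D`, `act t x = y`
        have hx : act g (linv t) y = x := by rw [← h2, act_linv]
        have ht : linv t = s := hG.nr.unique hyD hsD (by rw [hx]; exact ⟨i, h1⟩)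
        have ht2 : t = linv s := by rw [← ht, linv_linv]
        subst ht2
        rw [linv_linv] at hx ⊢
        rw [hx] at hi₁
        have : i = i₁ := hG.fn _ _ _ h1 hi₁
        subst this
        rw [h2']
        exact hj.symm
      · exact hG.con t x i i' h1 h2
  · -- Case B: `D` is closed
    push Not at hA
    by_cases hB : ∃ x ∉ D, ∃ w : List (M × Bool), w ≠ [] ∧ Red w ∧ walk g w x = x
    · obtain ⟨k, _, s, y, c, hs, hr, hinj, hout, hc⟩ := exists_cycle hA ε hpar hB
      obtain ⟨j, hj⟩ := exists_labels s O hO1 hO2 j₀ ε hε c hc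
      have houtside : ∀ (u : List (M × Bool)) (x : X), x ∉ D → walk g u x ∉ D := by
        intro u
        induction u with
        | nil => intro x hx; exact hx
        | cons t u ih => intro x hx; exact ih _ (hA x hx t)
      have hclosed : ∀ x ∈ D, ∀ t, act g t x ∈ D := by
        intro x hx t
        by_contra hcon
        have := hA _ hcon (linv t)
        rw [act_linv] at this
        exact this hx
      set H : Set (X × I) := Set.range (fun a => (y a, j a)) with hH
      have hdom : {x | ∃ i, (x, i) ∈ G ∪ H} = D ∪ Set.range y := by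
        rw [dom_union]
        congr 1
        ext x
        simp only [hH, Set.mem_setOf_eq, Set.mem_range, Prod.mk.injEq]
        constructor
        · rintro ⟨i, a, h1, h2⟩
          exact ⟨a, h1⟩
        · rintro ⟨a, h1⟩
          exact ⟨j a, a, h1, rfl⟩
      have hGD : ∀ {x i}, (x, i) ∈ G → x ∈ D := fun h => ⟨_, h⟩
      refine ⟨G ∪ H, ⟨?_, ?_, ?_⟩, Set.subset_union_left, (y 0, j 0), Or.inr ⟨0, rfl⟩,
        fun h => hout 0 (hGD h)⟩
      · rintro x i i' (h1 | ⟨a, h1⟩) (h2 | ⟨b, h2⟩)
        · exact hG.fn x i i' h1 h2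
        · rw [Prod.mk.injEq] at h2
          obtain ⟨rfl, rfl⟩ := h2
          exact absurd (hGD h1) (hout b)
        · rw [Prod.mk.injEq] at h1
          obtain ⟨rfl, rfl⟩ := h1
          exact absurd (hGD h2) (hout a)
        · rw [Prod.mk.injEq] at h1 h2
          obtain ⟨rfl, rfl⟩ := h1
          obtain ⟨h2, rfl⟩ := h2
          rw [hinj h2]
      · rw [hdom]
        rintro x (hx | ⟨a, rfl⟩) t w hw ht
        · exact absurd (Or.inl (hclosed x hx t)) ht
        · rintro (hmem | ⟨b, hb⟩)
          · exact houtside _ _ (hout a) hmem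
          · rcases chord_head hcomm hs hr a b t w hw hb.symm with h | h
            · subst h
              exact ht (Or.inr ⟨a + 1, (hs a).symm⟩)
            · subst h
              have h3 := hs (a - 1)
              rw [sub_add_cancel] at h3
              apply ht
              refine Or.inr ⟨a - 1, ?_⟩
              rw [← h3, act_linv]
      · rintro t x i i' (h1 | ⟨a, h1⟩) (h2 | ⟨b, h2⟩)
        · exact hG.con t x i i' h1 h2
        · rw [Prod.mk.injEq] at h2
          have := hclosed x (hGD h1) t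
          rw [← h2.1] at this
          exact absurd this (hout b)
        · rw [Prod.mk.injEq] at h1
          obtain ⟨rfl, rfl⟩ := h1
          exact absurd (hGD h2) (hA _ (hout a) t)
        · rw [Prod.mk.injEq] at h1 h2
          obtain ⟨rfl, rfl⟩ := h1
          obtain ⟨h2, rfl⟩ := h2
          rcases chord_head hcomm hs hr a b t [] (red_singleton t) (by simpa using h2.symm) with
            h | h
          · subst h
            rw [hs] at h2
            rw [hinj h2]
            exact hj a
          · subst h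
            have h3 := hs (a - 1)
            rw [sub_add_cancel] at h3
            rw [← h3, act_linv] at h2
            rw [hinj h2, linv_linv]
            have h4 := hj (a - 1)
            rw [sub_add_cancel] at h4
            exact h4.symm
    · push Not at hB
      have hdom : {x | ∃ i, (x, i) ∈ insert (y, j₀) G} = insert y D := by
        ext x
        simp only [Set.mem_setOf_eq, Set.mem_insert_iff, Prod.mk.injEq, hDdef]
        constructor
        · rintro ⟨i, h | h⟩
          · exact Or.inl h.1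
          · exact Or.inr ⟨i, h⟩
        · rintro (h | ⟨i, h⟩)
          · exact ⟨j₀, Or.inl ⟨h, rfl⟩⟩
          · exact ⟨i, Or.inr h⟩
      have houtside : ∀ (u : List (M × Bool)) (x : X), x ∉ D → walk g u x ∉ D := by
        intro u
        induction u with
        | nil => intro x hx; exact hx
        | cons t u ih => intro x hx; exact ih _ (hA x hx t)
      have hclosed : ∀ x ∈ D, ∀ t, act g t x ∈ D := by
        intro x hx t
        by_contra hcon
        have := hA _ hcon (linv t)
        rw [act_linv] at this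
        exact this hx
      refine ⟨insert (y, j₀) G, ⟨?_, ?_, ?_⟩, Set.subset_insert _ _, (y, j₀),
        Set.mem_insert _ _, hy j₀⟩
      · intro x i i' h1 h2
        rw [Set.mem_insert_iff, Prod.mk.injEq] at h1 h2
        rcases h1 with ⟨rfl, rfl⟩ | h1 <;> rcases h2 with ⟨h2, h2'⟩ | h2
        · exact h2'.symm
        · exact absurd ⟨_, h2⟩ hyD
        · subst h2
          exact absurd ⟨_, h1⟩ hyD
        · exact hG.fn x i i' h1 h2
      · rw [hdom]
        rintro x hx t w hw ht hmem
        rw [Set.mem_insert_iff] at hx hmem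
        rw [Set.mem_insert_iff, not_or] at ht
        rcases hx with rfl | hx
        · rcases hmem with h | h
          · exact hB x hyD (t :: w) (by simp) hw h
          · exact houtside _ _ hyD h
        · exact ht.2 (hclosed x hx t)
      · intro t x i i' h1 h2
        rw [Set.mem_insert_iff, Prod.mk.injEq] at h1 h2
        rcases h1 with ⟨rfl, rfl⟩ | h1 <;> rcases h2 with ⟨h2, h2'⟩ | h2
        · exact absurd (by simpa using h2) (hB x hyD [t] (by simp) (red_singleton t))
        · exact absurd ⟨_, h2⟩ (hA _ hyD t)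
        · have := hclosed x ⟨_, h1⟩ t
          rw [h2] at this
          exact absurd this hyD
        · exact hG.con t x i i' h1 h2

/-- **Main combinatorial theorem**: all the congruences can be solved along the action. -/
theorem exists_labelling {g : M → Equiv.Perm X} (hcomm : Comm g) (ε : M → ℤˣ)
    (hpar : ∀ (x : X) (w : List (M × Bool)), Red w → w ≠ [] → walk g w x = x →
      (w.map (fun s => ε s.1)).prod = 1)
    (L R : M → Set I) (hL1 : ∀ i, (L i).Nonempty) (hL2 : ∀ i, L i ≠ Set.univ)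
    (hR1 : ∀ i, (R i).Nonempty) (hR2 : ∀ i, R i ≠ Set.univ) (j₀ : I)
    (hε : ∀ i, ε i = 1 ↔ (j₀ ∈ L i ↔ j₀ ∈ R i)) :
    ∃ f : X → I, ∀ i x, f x ∈ L i ↔ f (g i x) ∈ R i := by
  classical
  let O : M × Bool → Set I := fun s => if s.2 then L s.1 else R s.1
  obtain ⟨G, hG⟩ := zorn_subset {G : Set (X × I) | Good g O G} (by
    intro c hc hch
    exact ⟨⋃₀ c, good_sUnion c hc hch, fun s hs => Set.subset_sUnion_of_mem hs⟩)
  have hdom : ∀ x, ∃ i, (x, i) ∈ G := by
    intro x
    by_contra hcon
    push Not at hcon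
    obtain ⟨H, hH, hGH, p, hp, hpG⟩ := exists_extension hcomm ε hpar O
      (by rintro ⟨i, b⟩; cases b
          · exact hR1 i
          · exact hL1 i)
      (by rintro ⟨i, b⟩; cases b
          · exact hR2 i
          · exact hL2 i) j₀ hε hG.prop hcon
    exact hpG (hG.le_of_ge hH hGH hp)
  choose f hf using hdom
  refine ⟨f, fun i x => ?_⟩
  exact hG.prop.con (i, true) x (f x) (f (g i x)) (hf x) (hf _)

end Helper826.Cong
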